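import Mathlib

/-!
# FR.Int : the sum of a character over the elements of a given order is an integer

For a cyclic subgroup `C` let `S C` be the sum of the character over the generators of `C` (the `h` with `zpowers h = C`).  `∑ h : C, χ h = card C * dim V^C` is an integer
(`Representation.average_char_eq_finrank_invariants` for the restriction to `C`), and it is the sum of `S D` over the subgroups `D ≤ C`.  By strong induction on `card C` all `S C` are
integers.  The sum over the elements of order `d` is the sum of `S C` over the subgroups `C` of order `d`.
-/

namespace Pool.Agent.H95.FR

theorem sum_order_int {G : Type} [Group G] [Fintype G] {V : Type} [AddCommGroup V] [Module ℂ V] [FiniteDimensional ℂ V] (ρ : Representation ℂ G V) (d : ℕ) :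
    ∃ z : ℤ, ∑ g : G, (if orderOf g = d then ρ.character g else 0) = z := by
  sorry

end Pool.Agent.H95.FR
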