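import Pool.Agent.H95.FR.Comb
import Pool.Agent.H95.FR.Int
import Pool.Agent.H72.OD.MGpA
import Pool.Agent.H42.Wilde.Char

/-!
# FR.Chr : all characters

By `exists_mult` (`OD/MGpA`) it is enough to take an irreducible character `χ`.  If `χ = 1`: `QM.one ⟨G, 1⟩` (`g ∣ g ^ g ^ 3`).  If `χ ≠ 1`: `∑ h, χ h = 0` (`ip_irr` with the trivial
character), `c d = g⁻¹ * ∑_(orderOf h = d) χ h⁻¹` is rational (`sum_order_int`), `D` the set of the orders `≠ 1` of the elements, `c1 = χ 1 / g`.  `∑ |c d| ≤ g⁻¹ ∑_(h ≠ 1) ‖χ h‖ ≤ χ 1`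
because `‖χ h‖ ≤ χ 1` (`exists_char_pow` in `H42/Wilde/Char`).
-/

open Module
open Pool.Agent.H7.Artin Pool.Agent.H58.S2 Pool.Agent.H72.HP Pool.Agent.H7.HB Pool.Agent.H76.TD Pool.Agent.H28.TD Pool.Agent.H72.OD

namespace Pool.Agent.H95.FR

theorem norm_char_le {G : Type} [Group G] [Fintype G] {V : Type} [AddCommGroup V] [Module ℂ V] [FiniteDimensional ℂ V] (ρ : Representation ℂ G V) (h : G) :
    ‖ρ.character h‖ ≤ finrank ℂ V := by
  sorry

theorem qm_char {G : Type} [Group G] [Fintype G] {V : Type} [AddCommGroup V] [Module ℂ V] [FiniteDimensional ℂ V] (ρ : Representation ℂ G V) :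
    QM (Nat.card G ^ Nat.card G ^ 3) fun φ => ip (fun h : G => φ (orderOf h)) ρ.character := by
  sorry

end Pool.Agent.H95.FR
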