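import Pool.Agent.H95.FR.Defs

/-!
# FR.Cnt : counting

`M = Fin k → ZMod e`.  `SV d M` is `{i // i ≠ 0} → M` (the value at `0` is minus the sum of the others), so it has `e ^ (k * (d - 1))` elements.  All orders divide `e`.  If some coordinate
`v 1 j` is `1` (or `v i j`, `i ≠ 0`), the order is `e`: so the number of the `v` of other order is at most `card {v | ∀ j, v 1 j ≠ 1} = (e - 1) ^ k * e ^ (k * (d - 2))`.
-/

open Pool.Agent.H7.Artin

namespace Pool.Agent.H95.FR

theorem card_sv (d e k : ℕ) [NeZero d] [NeZero e] : Nat.card (SV d (Fin k → ZMod e)) = e ^ (k * (d - 1)) := by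
  sorry

theorem order_dvd (d e k : ℕ) [NeZero d] [NeZero e] (v : SV d (Fin k → ZMod e)) : addOrderOf v ∣ e := by
  sorry

theorem cnt (d e k : ℕ) [NeZero d] [NeZero e] (hd : 2 ≤ d) :
    Nat.card {v : SV d (Fin k → ZMod e) // addOrderOf v ≠ e} * e ^ k ≤ (e - 1) ^ k * Nat.card (SV d (Fin k → ZMod e)) := by
  sorry

end Pool.Agent.H95.FR
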