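import Pool.Agent.H95.FR.Pair

/-!
# FR.Comb : the combination

`P = {d ∈ D, 0 < c d}`, `Q = {d ∈ D, c d < 0}`, `n d = -c d`, `p = ∑ P c`, `T = ∑ Q n = p + c1`, `η = c1 / T`, `(1 - η) T = p`.
`c1 δ_1 + ∑ c d δ_d = ∑ d ∈ Q, ∑ e ∈ P, (n d * c e / p) * ((1 - η) δ_e + η δ_1 - δ_d)` if `P` is not empty, `= ∑ d ∈ Q, n d (δ_1 - δ_d)` if it is.
-/

open Pool.Agent.H7.Artin

namespace Pool.Agent.H95.FR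

theorem comb {g : ℕ} (hg : 0 < g) (D : Finset ℕ) (hD : ∀ d ∈ D, 2 ≤ d ∧ d ∣ g) (c : ℕ → ℚ) {c1 : ℚ} (h1 : 0 < c1) (hs : c1 + ∑ d ∈ D, c d = 0)
    (hT : ∑ d ∈ D, |c d| ≤ g * c1) : QM (g ^ g ^ 3) fun φ => (c1 : ℂ) * φ 1 + ∑ d ∈ D, (c d : ℂ) * φ d := by
  sorry

end Pool.Agent.H95.FR
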