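import Pool.Agent.H95.FR.Defs

/-!
# FR.Cone : the functionals with `QM B` are a cone
-/

open Pool.Agent.H7.Artin

namespace Pool.Agent.H95.FR

theorem QM.congr {B : ℕ} {L L' : (ℕ → ℂ) → ℂ} (h : QM B L) (he : ∀ φ, L' φ = L φ) : QM B L' := by
  sorry

theorem QM.zero (B : ℕ) : QM B fun _ => 0 := by
  sorry

theorem QM.one {B : ℕ} (x : LG) (hx : Nat.card x.H ∣ B) : QM B (La x) := by
  sorry

theorem QM.mono {B B' : ℕ} {L : (ℕ → ℂ) → ℂ} (h : QM B L) (hB : B ∣ B') : QM B' L := by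
  sorry

theorem QM.add {B : ℕ} {L L' : (ℕ → ℂ) → ℂ} (h : QM B L) (h' : QM B L') : QM B fun φ => L φ + L' φ := by
  sorry

theorem QM.of_mul {B : ℕ} {L : (ℕ → ℂ) → ℂ} {k : ℕ} (hk : 0 < k) (h : QM B fun φ => (k : ℂ) * L φ) : QM B L := by
  sorry

theorem QM.smul {B : ℕ} {L : (ℕ → ℂ) → ℂ} (h : QM B L) {q : ℚ} (hq : 0 ≤ q) : QM B fun φ => (q : ℂ) * L φ := by
  sorry

theorem QM.sum {B : ℕ} {ι : Type} (s : Finset ι) {L : ι → (ℕ → ℂ) → ℂ} (h : ∀ i ∈ s, QM B (L i)) : QM B fun φ => ∑ i ∈ s, L i φ := by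
  sorry

end Pool.Agent.H95.FR
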