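import Pool.Agent.H95.FR.Int

/-!
# FR.Cyc : a sum of linear characters of a cyclic group

`n ψ := φ(d) - ∑ (generators g) ψ g` is a natural number for every linear character `ψ` of the cyclic group of order `d`: an integer by `sum_order_int` (for the representation of dimension
one), and `≥ 0` since `‖ψ g‖ = 1`.  `∑ ψ, n ψ * ψ c = φ(d) * d * [c = 1] - d * [c is a generator]` since `∑ ψ, ψ x = d * [x = 1]` (`AddChar.sum_apply_eq_ite` or the like; the linear
characters can be taken as `ZMod.toCircle` powers, or as `AddChar (ZMod d) ℂ`).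
-/

namespace Pool.Agent.H95.FR

theorem exists_psi (d : ℕ) [NeZero d] : ∃ l : List (Multiplicative (ZMod d) →* ℂˣ), ∀ c : Multiplicative (ZMod d),
    (l.map fun ψ => ((ψ c : ℂˣ) : ℂ)).sum = (if c = 1 then (d : ℂ) * d.totient else 0) - if orderOf c = d then (d : ℂ) else 0 := by
  sorry

end Pool.Agent.H95.FR
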