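import Pool.Agent.H7.Artin.Base

/-!
# FR.Defs : class functions which depend only on the order of the elements

`L φ = ip (φ ∘ orderOf) f` for a class function `f` of a finite group.  `QM B L`: a positive multiple of `L` is a sum of the functionals `La` of linear characters of finite groups
whose orders divide `B`.
-/

open Pool.Agent.H7.Artin

namespace Pool.Agent.H95.FR

/-- a finite group with a linear character -/
structure LG where
  /-- the group -/
  H : Type
  [gp : Group H]
  [ft : Fintype H]
  /-- the linear character -/
  ν : H →* ℂˣ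

attribute [instance] LG.gp LG.ft

/-- the functional of a linear character -/
noncomputable def La (x : LG) (φ : ℕ → ℂ) : ℂ := ip (fun h : x.H => φ (orderOf h)) fun h => ((x.ν h : ℂˣ) : ℂ)

/-- a positive multiple is a sum of functionals of linear characters -/
def QM (B : ℕ) (L : (ℕ → ℂ) → ℂ) : Prop :=
  ∃ k : ℕ, 0 < k ∧ ∃ l : List LG, (∀ x ∈ l, Nat.card x.H ∣ B) ∧ ∀ φ : ℕ → ℂ, (k : ℂ) * L φ = (l.map fun x => La x φ).sum

/-- the functions on `ZMod d` with values in `M` with sum zero -/
def SV (d : ℕ) [NeZero d] (M : Type) [AddCommGroup M] : AddSubgroup (ZMod d → M) where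
  carrier := {v | ∑ i, v i = 0}
  add_mem' := fun {a b} ha hb => by
    change ∑ i, (a i + b i) = 0
    rw [Finset.sum_add_distrib, show ∑ i, a i = 0 from ha, show ∑ i, b i = 0 from hb, add_zero]
  zero_mem' := Finset.sum_const_zero
  neg_mem' := fun {a} ha => by
    change ∑ i, -a i = 0
    rw [Finset.sum_neg_distrib, show ∑ i, a i = 0 from ha, neg_zero]

noncomputable instance (d : ℕ) [NeZero d] (M : Type) [AddCommGroup M] [Finite M] : Fintype (SV d M) := Fintype.ofFinite _

end Pool.Agent.H95.FR
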