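import Pool.Agent.H95.FR.Fld

/-!
# FR.Exi : existence

`Gal(L/F)` has at least `n!` elements: it is the symmetric group of the roots.  `G` acts freely on `m = g ^ g ^ 3` roots and trivially on the others (`exists_free` with one colour); this gives
an injective homomorphism `G →* Gal(L/F)`, and `K` is the fixed field of the image, `Gal(L/K) ≃* G` (`IntermediateField.subgroupEquivAlgEquiv` or as in `H76/TD/Ex`).  A root which is
fixed by `Gal(L/K)` is in `K`; if the stabiliser of the root `x` is trivial, then `K(x) = L`.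
-/

open NumberField Module Polynomial Equiv Equiv.Perm
open Pool.Agent.H7.Artin Pool.Agent.H7.HB Pool.Agent.H24.HL Pool.Agent.H72.EG Pool.Agent.H72.DK Pool.Agent.H72.SR
open Pool.Agent.H58.S2 Pool.Agent.H72.HP Pool.Agent.H28.HQ Pool.Agent.H72.HQ
open Pool.Agent.H28.QZ Pool.Agent.H28.RR Pool.Agent.H28.PS Pool.Agent.H76.TD
open Pool.Agent.H28.TD Pool.Agent.H76.WR Pool.Agent.H72.OD
open scoped Nat

namespace Pool.Agent.H95.FR

set_option linter.unusedSectionVars false

/-- **Existence.** -/
theorem exists_free_field {F L : Type} [Field F] [NumberField F] [Field L] [NumberField L] [Algebra F L] [IsGalois F L] (f : F[X]) [f.IsSplittingField F L]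
    (hf : (f.natDegree)! ≤ Nat.card Gal(L/F)) (G : Type) [Group G] [Finite G] (hG : Nat.card G ^ Nat.card G ^ 3 ≤ f.natDegree) :
    ∃ K : IntermediateField F L, Nonempty (Gal(L/K) ≃* G) ∧ ∀ (V : Type) [AddCommGroup V] [Module ℂ V] [FiniteDimensional ℂ V] (ρ : Representation ℂ Gal(L/K) V),
      ArtinFor K L ρ ∧ HeckePower K ρ := by
  sorry

end Pool.Agent.H95.FR
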