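import Pool.Agent.H28.TD.WrF

/-!
# FR.Free : free actions which preserve a colouring

`OffFree P A`: `H` acts by `P`, freely on the invariant set `A`, trivially on the complement.
* `exists_free`: for every colour `c` choose a bijection of `{x // x ∈ A ∧ col x = c}` with `H × Fin m`, `H` acts by left multiplication.
* `conj_free`: let `d` be the order of `h` and of `h'`.  The powers of `κ h` act freely on `A`: all its cycles on `A` have `d` elements.  For every colour `c` the set
  `{x // x ∈ A ∧ col x = c}` is in bijection with `(orbits of zpowers h) × Fin d` such that `κ h` is `(o, j) ↦ (o, j + 1)`, the same for `κ' h'`; both have the same number of orbits.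
-/

open Module Equiv Equiv.Perm
open Pool.Agent.H7.Artin Pool.Agent.H58.S2 Pool.Agent.H72.HP Pool.Agent.H7.HB Pool.Agent.H76.TD Pool.Agent.H28.TD

namespace Pool.Agent.H95.FR

set_option linter.unusedSectionVars false

/-- free on `A`, trivial on the complement -/
def OffFree {H X : Type} [Group H] (P : H →* Perm X) (A : Set X) : Prop :=
  (∀ x, x ∉ A → ∀ h, P h x = x) ∧ ∀ x ∈ A, ∀ h, P h x ∈ A ∧ (P h x = x → h = 1)

theorem exists_free {X C H : Type} [Fintype X] [Group H] [Fintype H] (col : X → C) (A : Set X)
    (hd : ∀ c, Nat.card H ∣ Nat.card {x // x ∈ A ∧ col x = c}) : ∃ κ : H →* colP col, OffFree ((colP col).subtype.comp κ) A := by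
  sorry

theorem conj_free {X C H H' : Type} [Fintype X] [Group H] [Finite H] [Group H'] [Finite H'] (col : X → C) (A : Set X) (κ : H →* colP col) (κ' : H' →* colP col)
    (hκ : OffFree ((colP col).subtype.comp κ) A) (hκ' : OffFree ((colP col).subtype.comp κ') A) (h : H) (h' : H') (ho : orderOf h = orderOf h') :
    ∃ s : colP col, s * κ h * s⁻¹ = κ' h' := by
  sorry

end Pool.Agent.H95.FR
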