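import Pool.Agent.H95.FR.Defs
import Pool.Agent.H95.FR.Free

/-!
# FR.ToM : from functionals to class functions of the symmetric group

Let `θ` be a class function on `colP col`.  `φ d := θ s` for some `s = κ h`, `κ : H →* colP col` a homomorphism from a finite group with `OffFree κ A`, `orderOf h = d`, if there is one, `0` if not.
By `conj_free` `θ (κ h) = φ (orderOf h)` for all these `κ`.  For each `x = (H, ν)` in the list take `κ` by `exists_free`: `La x φ = ip (θ ∘ κ) ν`, and this is `ip θ (indChar J ν')` for a
linear character of a subgroup or zero (`MonoFn` of linear characters: find the lemma for `MonoFn κ fun h => ((ν h : ℂˣ) : ℂ)`).  If `A` is empty, `κ` is trivial, this is no problem.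
-/

open Module Equiv Equiv.Perm
open Pool.Agent.H7.Artin Pool.Agent.H58.S2 Pool.Agent.H72.HP Pool.Agent.H7.HB Pool.Agent.H76.TD Pool.Agent.H28.TD

namespace Pool.Agent.H95.FR

set_option linter.unusedSectionVars false

theorem mono_of_qm {X C G : Type} [Fintype X] [Group G] [Fintype G] (col : X → C) (A : Set X) (ι : G →* colP col) (hι : OffFree ((colP col).subtype.comp ι) A)
    {B : ℕ} (hB : ∀ c, B ∣ Nat.card {x // x ∈ A ∧ col x = c}) {f : G → ℂ} (h : QM B fun φ => ip (fun g : G => φ (orderOf g)) f) :
    ∃ k : ℕ, 0 < k ∧ MonoFn ι fun g => (k : ℂ) * f g := by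
  sorry

end Pool.Agent.H95.FR
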