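import Pool.Agent.H95.FR.Chr
import Pool.Agent.H95.FR.ToM
import Pool.Agent.H72.OD.Fac

/-!
# FR.Fld : the theorem for fields

`mono_field`: the proof of `goodAt_field_factored_mul` (`OD/Fac`) with the hypothesis for the colouring by the minimal polynomials only.
`free_field`: `A = {x | x ∉ K}`, `X = f.rootSet L`, `G = Gal(L/K)`, `rootHom f K`; the stabiliser of `x` is `Gal(L/K(x))` (`fixP_rootHom`), trivial if `K(x) = L`.
-/

open NumberField Module Polynomial Equiv Equiv.Perm
open Pool.Agent.H7.Artin Pool.Agent.H7.HB Pool.Agent.H24.HL Pool.Agent.H72.EG Pool.Agent.H72.DK Pool.Agent.H72.SR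
open Pool.Agent.H58.S2 Pool.Agent.H72.HP Pool.Agent.H28.HQ Pool.Agent.H72.HQ
open Pool.Agent.H28.QZ Pool.Agent.H28.RR Pool.Agent.H28.PS Pool.Agent.H76.TD
open Pool.Agent.H28.TD Pool.Agent.H76.WR Pool.Agent.H72.OD

namespace Pool.Agent.H95.FR

set_option linter.unusedSectionVars false

theorem mono_field {F L : Type} [Field F] [NumberField F] [Field L] [NumberField L] [Algebra F L] [IsGalois F L] (f : F[X]) [f.IsSplittingField F L]
    (K : IntermediateField F L) (hf : Factored f K) {V : Type} [AddCommGroup V] [Module ℂ V] [FiniteDimensional ℂ V] (ρ : Representation ℂ Gal(L/K) V)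
    (h : ∀ ι : Gal(L/K) →* colP (fun x : f.rootSet L => minpoly F (x : L)), (∀ g, ((ι g : colP fun x : f.rootSet L => minpoly F (x : L)) : Perm (f.rootSet L)) = rootHom f K g) →
      ∃ k : ℕ, 0 < k ∧ MonoFn ι fun g => (k : ℂ) * ρ.character g) : ArtinFor K L ρ ∧ HeckePower K ρ := by
  sorry

/-- **The theorem for fields.** -/
theorem free_field {F L : Type} [Field F] [NumberField F] [Field L] [NumberField L] [Algebra F L] [IsGalois F L] (f : F[X]) [f.IsSplittingField F L]
    (K : IntermediateField F L) (hf : Factored f K) (hK : ∀ x ∈ f.rootSet L, x ∈ K ∨ IntermediateField.adjoin K {x} = ⊤)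
    (hd : ∀ x ∈ f.rootSet L, finrank K L ^ finrank K L ^ 3 ∣ Nat.card {y : L // y ∈ f.rootSet L ∧ y ∉ K ∧ minpoly F y = minpoly F x})
    {V : Type} [AddCommGroup V] [Module ℂ V] [FiniteDimensional ℂ V] (ρ : Representation ℂ Gal(L/K) V) : ArtinFor K L ρ ∧ HeckePower K ρ := by
  sorry

end Pool.Agent.H95.FR
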