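import Pool.Agent.H95.FR.Defs

/-!
# FR.Grp : the group `V ⋊ C_d`

`V = SV d M`, the product of `(v, c)` and `(w, c')` is `(fun i => v i + w (i - c), c + c')`.  `(v, c) ^ n = (fun i => ∑ j ∈ range n, v (i - j * c), n * c)`; if `c` is a generator of
`ZMod d` (a unit), then `j ↦ i - j * c` is a bijection from `range d` to `ZMod d`, so `(v, c) ^ d = (0, 0)`, and the order of `(v, c)` is a multiple of the order `d` of `c`.
Write it as a structure with a `Group` instance (`Group.ofLeftAxioms`), or as `SemidirectProduct`.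
-/

open Pool.Agent.H7.Artin

namespace Pool.Agent.H95.FR

theorem exists_grp (d : ℕ) [NeZero d] (M : Type) [AddCommGroup M] [Finite M] :
    ∃ (H : Type) (_ : Group H) (_ : Fintype H) (e : SV d M × Multiplicative (ZMod d) ≃ H) (π : H →* Multiplicative (ZMod d)),
      (∀ v c, π (e (v, c)) = c) ∧ (∀ v c, orderOf c = d → orderOf (e (v, c)) = d) ∧ ∀ v, orderOf (e (v, 1)) = addOrderOf v := by
  sorry

end Pool.Agent.H95.FR
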