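import Pool.Agent.H95.FR.Cone
import Pool.Agent.H95.FR.Cyc
import Pool.Agent.H95.FR.Grp

/-!
# FR.Mov : the move

The list is `ψ ∘ π` for the `ψ` of `exists_psi`, the multiple is `φ(d)`:  `∑ La = |H|⁻¹ ∑_(v, c) φ(ord (v, c)) * (d φ(d) [c = 1] - d [ord c = d])`
`= (d |V|)⁻¹ * (d φ(d) ∑ v, φ(ord v) - d |V| φ(d) * φ d)` (the function `c ↦ [..]` is invariant under `c ↦ c⁻¹`, the number of the generators is `φ(d)`).
-/

open Pool.Agent.H7.Artin

namespace Pool.Agent.H95.FR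

theorem move (d : ℕ) [NeZero d] (M : Type) [AddCommGroup M] [Finite M] {B : ℕ} (hB : d * Nat.card (SV d M) ∣ B) :
    QM B fun φ => (Nat.card (SV d M) : ℂ)⁻¹ * ∑ v : SV d M, φ (addOrderOf v) - φ d := by
  sorry

/-- `M = PUnit` -/
theorem move_one (d : ℕ) [NeZero d] {B : ℕ} (hB : d ∣ B) : QM B fun φ => φ 1 - φ d := by
  sorry

end Pool.Agent.H95.FR
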