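import Mathlib

/-!
# FR.Num : numbers

`2 * (e - 1) ^ e ≤ e ^ e` (Bernoulli: `(1 + 1 / (e - 1)) ^ e ≥ 1 + e / (e - 1) ≥ 2`), so `2 ^ g * (e - 1) ^ (e * g) ≤ e ^ (e * g)`, and `g ≤ 2 ^ g`.
`d * e ^ (e * g * (d - 1))` divides `g * g ^ (g * g * (g - 1))`, and `1 + g * g * (g - 1) ≤ g ^ 3`.
-/

namespace Pool.Agent.H95.FR

theorem num_a {e g : ℕ} (he : 1 ≤ e) : g * (e - 1) ^ (e * g) ≤ e ^ (e * g) := by
  sorry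

theorem num_b {d e g : ℕ} (hg : 0 < g) (hd : d ∣ g) (he : e ∣ g) : d * e ^ (e * g * (d - 1)) ∣ g ^ g ^ 3 := by
  sorry

end Pool.Agent.H95.FR
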