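import Pool.Agent.H95.FR.Mov
import Pool.Agent.H95.FR.Cnt
import Pool.Agent.H95.FR.Num

/-!
# FR.Pair : pairs of orders

`M = Fin (e * g) → ZMod e`, `a e' = |V|⁻¹ * #{v | addOrderOf v = e'}`: `∑ e' ∣ e, a e' = 1`, `1 - a e ≤ 1 / g` (`cnt`, `num_a`), so `a e ≥ 1 - η ≥ 0`.
`move d M` gives `∑ a e' δ_e' - δ_d`; add `a e' (δ_1 - δ_e')` for `e' ≠ e` (`move_one`): `a e δ_e + (1 - a e) δ_1 - δ_d`.  If `a e ≠ 0` multiply by `t = (1 - η) / a e ∈ [0, 1]` and add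
`(1 - t) (δ_1 - δ_d)`.  If `a e = 0`, then `η = 1` and `move_one d` is enough.
-/

open Pool.Agent.H7.Artin

namespace Pool.Agent.H95.FR

theorem pair {g d e : ℕ} (hg : 0 < g) (hd2 : 2 ≤ d) (hd : d ∣ g) (he : e ∣ g) {η : ℚ} (h1 : (g : ℚ)⁻¹ ≤ η) (h2 : η ≤ 1) :
    QM (g ^ g ^ 3) fun φ => (1 - (η : ℂ)) * φ e + (η : ℂ) * φ 1 - φ d := by
  sorry

end Pool.Agent.H95.FR
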